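import Pool.Agent.Q71.DN.Defs

set_option autoImplicit false

/-! Job DN13 of project DN: the core estimate. -/

namespace Pool.Agent.Q38.DN

open Finset Pool.Agent.Q71.DN

theorem sum_lower (D : ℕ) (hD : 1 ≤ D) (T : Finset ℕ) (hT : ∀ n ∈ T, Even n) :
    ((T.card : ℝ) / 2) * ((T.card : ℝ) / (2 * D)) ^ D ≤
      ∑ n ∈ T, ((n / (2 * D) + 1 : ℕ) : ℝ) ^ D := by
  classical
  set r := T.card with hr
  set h := r / 2 with hh
  have hDr : (0 : ℝ) < D := by exact_mod_cast hD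
  have hsmall : (T.filter fun n => n < 2 * h).card ≤ h := by
    have h1 : (T.filter fun n => n < 2 * h).card ≤ (range h).card := by
      refine Finset.card_le_card_of_injOn (fun n => n / 2) ?_ ?_
      · intro n hn
        have hn' := (Finset.mem_filter.1 (Finset.mem_coe.1 hn)).2
        simp only [Finset.coe_range, Set.mem_Iio]
        omega
      · intro a ha b hb hab
        obtain ⟨a', ha'⟩ := hT a (Finset.mem_filter.1 (Finset.mem_coe.1 ha)).1
        obtain ⟨b', hb'⟩ := hT b (Finset.mem_filter.1 (Finset.mem_coe.1 hb)).1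
        simp only at hab
        omega
    rwa [Finset.card_range] at h1
  have hsplit := Finset.card_filter_add_card_filter_not (s := T) (fun n => n < 2 * h)
  have hbig : (r : ℝ) / 2 ≤ ((T.filter fun n => ¬ n < 2 * h).card : ℝ) := by
    have h1 : r ≤ 2 * (T.filter fun n => ¬ n < 2 * h).card := by omega
    have h2 : (r : ℝ) ≤ 2 * ((T.filter fun n => ¬ n < 2 * h).card : ℝ) := by exact_mod_cast h1
    linarith
  have hterm : ∀ n ∈ T.filter (fun n => ¬ n < 2 * h),
      ((r : ℝ) / (2 * D)) ^ D ≤ ((n / (2 * D) + 1 : ℕ) : ℝ) ^ D := by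
    intro n hn
    have hn' := (Finset.mem_filter.1 hn).2
    refine pow_le_pow_left₀ (by positivity) ?_ _
    have h1 : h / D ≤ n / (2 * D) := by
      rw [← Nat.mul_div_mul_left h D (by norm_num : 0 < 2)]
      exact Nat.div_le_div_right (by omega)
    have h2 : h < D * (h / D + 1) := Nat.lt_mul_div_succ h hD
    have h3 : r ≤ 2 * D * (n / (2 * D) + 1) := by
      have h4 : D * (h / D + 1) ≤ D * (n / (2 * D) + 1) := Nat.mul_le_mul_left _ (by omega)
      have h5 : 2 * D * (n / (2 * D) + 1) = 2 * (D * (n / (2 * D) + 1)) := by ring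
      rw [h5]
      have h6 : r ≤ 2 * h + 1 := by omega
      linarith
    rw [div_le_iff₀ (by positivity)]
    have h5 : (r : ℝ) ≤ ((2 * D * (n / (2 * D) + 1) : ℕ) : ℝ) := by exact_mod_cast h3
    refine h5.trans (le_of_eq ?_)
    push_cast
    ring
  calc ((r : ℝ) / 2) * ((r : ℝ) / (2 * D)) ^ D
      ≤ ((T.filter fun n => ¬ n < 2 * h).card : ℝ) * ((r : ℝ) / (2 * D)) ^ D :=
        mul_le_mul_of_nonneg_right hbig (by positivity)
    _ = ∑ n ∈ T.filter (fun n => ¬ n < 2 * h), ((r : ℝ) / (2 * D)) ^ D := by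
        rw [Finset.sum_const, nsmul_eq_mul]
    _ ≤ ∑ n ∈ T.filter (fun n => ¬ n < 2 * h), ((n / (2 * D) + 1 : ℕ) : ℝ) ^ D :=
        Finset.sum_le_sum hterm
    _ ≤ ∑ n ∈ T, ((n / (2 * D) + 1 : ℕ) : ℝ) ^ D :=
        Finset.sum_le_sum_of_subset_of_nonneg (Finset.filter_subset _ _)
          fun n _ _ => by positivity

/-- **DN-13** -/
theorem t_Core (h10 : StmPair) (h6 : StmReal) (h4 : StmExp) (h3 : StmPhi) : StmCore := by
  intro F _ _ m D t φ ψ x hD hnet hdig R hBd L hL hm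
  obtain ⟨l1, l', T, p0, p1, hlev, hLT, hpair⟩ := h10 F m D t φ ψ hD hnet L hL hm
  have hreal := h6 F m D φ ψ x hdig R hBd (t + 2) L l1 l' T p0 p1 (by omega) hL hpair
  rw [h4 F m D (t + 2) L l1 φ l' T (by omega) hL] at hreal
  set P := 2 * L - 1 with hP
  set e := (D + 1) * P with he
  have hPe : P ≤ e := by
    rw [he]
    nlinarith
  have hterm : ∀ n ∈ T, ((n / (2 * D) + 1 : ℕ) : ℝ) ^ D ≤
      (-1 : ℝ) ^ e * (Phi φ (t + 2) P l' (l1 + (t + 2) * n) -
        Phi φ (t + 2) P l' (l1 + (t + 2) * (n + 1))) := by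
    intro n hn
    obtain ⟨heven, hlt⟩ := hpair.even n hn
    have hn1 : n + 1 ≤ P := by
      obtain ⟨a, ha⟩ := heven
      omega
    have h5 := h3 F m D t φ hD hnet P n (l1 + (t + 2) * n) l' (by omega) (by
      have h6 : (t + 2) * n + (t + 2) * (e - n) = (t + 2) * e := by
        rw [← Nat.mul_add]
        congr 1
        omega
      rw [← he]
      omega)
    have h7 := h3 F m D t φ hD hnet P (n + 1) (l1 + (t + 2) * (n + 1)) l' hn1 (by
      have h6 : (t + 2) * (n + 1) + (t + 2) * (e - (n + 1)) = (t + 2) * e := by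
        rw [← Nat.mul_add]
        congr 1
        omega
      rw [← he]
      omega)
    rw [← he] at h5 h7
    have hs1 : (-1 : ℝ) ^ (e - n) = (-1 : ℝ) ^ e := by
      have h8 : (-1 : ℝ) ^ e = (-1 : ℝ) ^ (e - n) * (-1 : ℝ) ^ n := by
        rw [← pow_add]
        congr 1
        omega
      rw [h8, heven.neg_one_pow, mul_one]
    have hs2 : (-1 : ℝ) ^ (e - (n + 1)) = -(-1 : ℝ) ^ e := by
      have h8 : (-1 : ℝ) ^ e = (-1 : ℝ) ^ (e - (n + 1)) * (-1 : ℝ) ^ (n + 1) := by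
        rw [← pow_add]
        congr 1
        omega
      rw [h8, heven.add_one.neg_one_pow]
      ring
    rw [hs1] at h5
    rw [hs2] at h7
    have hmono : ((n / (2 * D) + 1 : ℕ) : ℝ) ^ D ≤ (((n + 1) / (2 * D) + 1 : ℕ) : ℝ) ^ D := by
      refine pow_le_pow_left₀ (by positivity) ?_ _
      have h9 : n / (2 * D) + 1 ≤ (n + 1) / (2 * D) + 1 :=
        Nat.add_le_add_right (Nat.div_le_div_right (by omega)) 1
      exact_mod_cast h9
    linarith
  have hsum : ∑ n ∈ T, ((n / (2 * D) + 1 : ℕ) : ℝ) ^ D ≤ 2 * R := by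
    calc ∑ n ∈ T, ((n / (2 * D) + 1 : ℕ) : ℝ) ^ D
        ≤ ∑ n ∈ T, (-1 : ℝ) ^ e * (Phi φ (t + 2) P l' (l1 + (t + 2) * n) -
            Phi φ (t + 2) P l' (l1 + (t + 2) * (n + 1))) := Finset.sum_le_sum hterm
      _ = (-1 : ℝ) ^ e * ∑ n ∈ T, (Phi φ (t + 2) P l' (l1 + (t + 2) * n) -
            Phi φ (t + 2) P l' (l1 + (t + 2) * (n + 1))) := by rw [Finset.mul_sum]
      _ ≤ |(-1 : ℝ) ^ e * ∑ n ∈ T, (Phi φ (t + 2) P l' (l1 + (t + 2) * n) -
            Phi φ (t + 2) P l' (l1 + (t + 2) * (n + 1)))| := le_abs_self _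
      _ ≤ 2 * R := by
          rw [abs_mul, abs_pow, abs_neg, abs_one, one_pow, one_mul]
          exact hreal
  have hlow := (sum_lower D hD T fun n hn => (hpair.even n hn).1).trans hsum
  have hDr : (0 : ℝ) < D := by exact_mod_cast hD
  have hLr : (L : ℝ) / 2 ≤ (T.card : ℝ) := by
    have : (L : ℝ) ≤ 2 * (T.card : ℝ) := by exact_mod_cast hLT
    linarith
  have h5 : ((L : ℝ) / 4) * ((L : ℝ) / (4 * D)) ^ D ≤ 2 * R := by
    refine le_trans ?_ hlow
    have h6 : (L : ℝ) / 4 ≤ (T.card : ℝ) / 2 := by linarith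
    have h7 : (L : ℝ) / (4 * D) ≤ (T.card : ℝ) / (2 * D) := by
      rw [div_le_div_iff₀ (by positivity) (by positivity)]
      nlinarith
    exact mul_le_mul h6 (pow_le_pow_left₀ (by positivity) h7 _) (by positivity) (by positivity)
  have h8 : (L : ℝ) ^ (D + 1) = 4 * (4 * D) ^ D * (((L : ℝ) / 4) * ((L : ℝ) / (4 * D)) ^ D) := by
    rw [div_pow, pow_succ]
    field_simp
  rw [h8]
  calc 4 * (4 * (D : ℝ)) ^ D * (((L : ℝ) / 4) * ((L : ℝ) / (4 * D)) ^ D)
      ≤ 4 * (4 * (D : ℝ)) ^ D * (2 * R) := mul_le_mul_of_nonneg_left h5 (by positivity)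
    _ = 8 * (4 * D) ^ D * R := by ring

end Pool.Agent.Q38.DN
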