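import Pool.Agent.Q71.DN.Defs

set_option autoImplicit false

/-! Job DN9 of project DN: zero-sum subsets. -/

namespace Pool.Agent.Q38.DN

open Finset MvPolynomial Pool.Agent.Q71.DN

theorem step (F : Type) [Field F] [Fintype F] (B J : Finset ℕ) (g : ℕ → ℕ → F)
    (h : J.card * (Fintype.card F - 1) < B.card) :
    ∃ T ⊆ B, T.Nonempty ∧ ∀ i ∈ J, ∑ n ∈ T, g n i = 0 := by
  classical
  obtain ⟨p, hp⟩ := CharP.exists F
  have hpp : p.Prime := CharP.char_is_prime F p
  have hq : 1 < Fintype.card F := Fintype.one_lt_card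
  let f : ℕ → MvPolynomial {n // n ∈ B} F := fun i =>
    ∑ n : {n // n ∈ B}, C (g n i) * X n ^ (Fintype.card F - 1)
  have hdeg : ∀ i, (f i).totalDegree ≤ Fintype.card F - 1 := by
    intro i
    refine (totalDegree_finsetSum _ _).trans (Finset.sup_le fun n _ => ?_)
    refine (totalDegree_mul _ _).trans ?_
    rw [totalDegree_C, zero_add]
    exact (totalDegree_pow _ _).trans (by rw [totalDegree_X, mul_one])
  have hsum : (∑ i ∈ J, (f i).totalDegree) < Fintype.card {n // n ∈ B} := by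
    rw [Fintype.card_coe]
    refine lt_of_le_of_lt ?_ h
    rw [← smul_eq_mul]
    exact Finset.sum_le_card_nsmul _ _ _ fun i _ => hdeg i
  have hdvd := char_dvd_card_solutions_of_sum_lt p hsum
  have h0 : ∀ i ∈ J, eval (0 : {n // n ∈ B} → F) (f i) = 0 := by
    intro i _
    simp only [f, map_sum, map_mul, eval_C, map_pow, eval_X, Pi.zero_apply]
    rw [zero_pow (by omega)]
    simp
  obtain ⟨x, hx, hx0⟩ : ∃ x : {n // n ∈ B} → F, (∀ i ∈ J, eval x (f i) = 0) ∧ x ≠ 0 := by
    by_contra hcon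
    push Not at hcon
    have h1 : Fintype.card {x : {n // n ∈ B} → F // ∀ i ∈ J, eval x (f i) = 0} = 1 := by
      rw [Fintype.card_eq_one_iff]
      exact ⟨⟨0, h0⟩, fun y => Subtype.ext (hcon y.1 y.2)⟩
    rw [h1] at hdvd
    exact hpp.one_lt.ne' (Nat.dvd_one.1 hdvd)
  refine ⟨(univ.filter fun n : {n // n ∈ B} => x n ≠ 0).map (Function.Embedding.subtype _),
    ?_, ?_, ?_⟩
  · intro n hn
    obtain ⟨m, -, rfl⟩ := Finset.mem_map.1 hn
    exact m.2
  · rw [Finset.map_nonempty]
    obtain ⟨n, hn⟩ := Function.ne_iff.1 hx0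
    exact ⟨n, Finset.mem_filter.2 ⟨Finset.mem_univ _, hn⟩⟩
  · intro i hi
    have h1 := hx i hi
    simp only [f, map_sum, map_mul, eval_C, map_pow, eval_X] at h1
    rw [Finset.sum_map, Finset.sum_filter]
    refine Eq.trans ?_ h1
    refine Finset.sum_congr rfl fun n _ => ?_
    by_cases hn : x n = 0
    · rw [if_neg (not_not.2 hn), hn, zero_pow (by omega), mul_zero]
    · rw [if_pos hn, FiniteField.pow_card_sub_one_eq_one _ hn, mul_one]
      rfl

/-- **DN-9** -/
theorem t_Zero : StmZero := by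
  classical
  intro F _ _ A J g
  obtain ⟨T, hT, hmax⟩ := Finset.exists_max_image
    (A.powerset.filter fun T => ∀ i ∈ J, ∑ n ∈ T, g n i = 0) Finset.card
    ⟨∅, by simp⟩
  rw [Finset.mem_filter, Finset.mem_powerset] at hT
  refine ⟨T, hT.1, hT.2, ?_⟩
  by_contra hcon
  push Not at hcon
  have h1 : J.card * (Fintype.card F - 1) < (A \ T).card := by
    rw [Finset.card_sdiff_of_subset hT.1]
    omega
  obtain ⟨T', hT', hne, hs⟩ := step F (A \ T) J g h1
  have hdis : Disjoint T T' := by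
    rw [Finset.disjoint_right]
    intro n hn
    exact (Finset.mem_sdiff.1 (hT' hn)).2
  have h2 := hmax (T ∪ T') (by
    rw [Finset.mem_filter, Finset.mem_powerset]
    refine ⟨Finset.union_subset hT.1 (hT'.trans Finset.sdiff_subset), fun i hi => ?_⟩
    rw [Finset.sum_union hdis, hT.2 i hi, hs i hi, add_zero])
  rw [Finset.card_union_of_disjoint hdis] at h2
  have h3 := hne.card_pos
  omega

end Pool.Agent.Q38.DN
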